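import Pool.Agent.Lib.MP_2f2443_an.IP.All

/-!
For every `k ≠ 0` the complex points with `f_k^q (x, y) = (x + p, y + r)` are isolated: there are
finitely many of them in every bounded subset of `ℂ × ℂ`.
-/

namespace Pool.Agent.Results.MP_2f2443_an.PeriodicPointsIsolated

open Pool.Agent.MP_2f2443_an.IP

theorem result : ∀ k : ℂ, k ≠ 0 → ∀ q : ℕ, 0 < q → ∀ (p r : ℤ) (B : Set (ℂ × ℂ)),
    Bornology.IsBounded B →
    {P : ℂ × ℂ | P ∈ B ∧ (SMC k)^[q] P = (P.1 + (p : ℂ), P.2 + (r : ℂ))}.Finite := by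
  intro k hk q hq p r B hB
  by_contra hinf
  obtain ⟨z, -, hz⟩ := Set.Infinite.exists_accPt_of_subset_isCompact hinf hB.isCompact_closure
    (fun P hP => subset_closure hP.1)
  exact t_is k hk q hq p r z (hz.mono (Filter.principal_mono.2 fun P hP => hP.2))

end Pool.Agent.Results.MP_2f2443_an.PeriodicPointsIsolated
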