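import Pool.Agent.Lib.MP_2f2443_an.RC.All

/-!
There is a residual set of real numbers which are not the rotation number of an invariant circle of any
standard map `f_k` with `k ≠ 0`.
-/

namespace Pool.Agent.Results.MP_2f2443_an.ResidualRotation

open Pool.Agent.MP_2f2443_an.RC

theorem result : ∀ᶠ ρ in residual ℝ, ∀ k : ℝ, k ≠ 0 → ρ ∉ RotSet k :=
  t_c3

end Pool.Agent.Results.MP_2f2443_an.ResidualRotation
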