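import Pool.Agent.Lib.MP_2f2443_an.RC.All

/-!
For every `k ≠ 0` the set of the rotation numbers of the invariant circles of the standard map `f_k` is a
closed nowhere dense set of irrational numbers.
-/

namespace Pool.Agent.Results.MP_2f2443_an.RotationSetNowhereDense

open Pool.Agent.MP_2f2443_an.RC

theorem result : ∀ k : ℝ, k ≠ 0 →
    IsClosed (RotSet k) ∧ (∀ ρ ∈ RotSet k, Irrational ρ) ∧ IsNowhereDense (RotSet k) :=
  t_c2

end Pool.Agent.Results.MP_2f2443_an.RotationSetNowhereDense
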